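import Pool.Agent.H92.CK.Targets

/-!
# (CNT) a jump which vanishes on a dense set vanishes
-/

open MeasureTheory Set Filter Topology Metric
open scoped ENNReal NNReal ContDiff RealInnerProductSpace

namespace Pool.Agent.H19.CK

open Pool.Agent.H92.CK Pool.Agent.H94.IC Pool.Agent.H94.AC

/-- both sides accumulate at the points of the surface -/
theorem side_closure (Ψ : OpenPartialHomeomorph E E) (q : E) (hq : q ∈ Ψ.source)
    (hq0 : (Ψ q) 2 = 0) (a : ℝ) (ha : a ≠ 0) (N : Set E) (hN : N ∈ 𝓝 q) :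
    q ∈ closure {z | z ∈ N ∧ z ∈ Ψ.source ∧ 0 < a * (Ψ z) 2} := by
  let g : ℝ → E := fun t => Ψ.symm (Ψ q + (t * a) • ev 2)
  have h0 : Ψ q + ((0 : ℝ) * a) • ev 2 = Ψ q := by rw [zero_mul, zero_smul, add_zero]
  have hc1 : ContinuousAt (fun t : ℝ => Ψ q + (t * a) • ev 2) 0 := by fun_prop
  have htgt : Ψ q + ((0 : ℝ) * a) • ev 2 ∈ Ψ.target := by
    rw [h0]
    exact Ψ.map_source hq
  have hg : Tendsto g (𝓝 0) (𝓝 q) := by
    have h1 : ContinuousAt Ψ.symm (Ψ q + ((0 : ℝ) * a) • ev 2) := Ψ.continuousAt_symm htgt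
    have h2 : Tendsto g (𝓝 0) (𝓝 (Ψ.symm (Ψ q + ((0 : ℝ) * a) • ev 2))) :=
      ContinuousAt.comp (f := fun t : ℝ => Ψ q + (t * a) • ev 2) (x := (0 : ℝ)) h1 hc1
    rw [h0, Ψ.left_inv hq] at h2
    exact h2
  have hev : ∀ᶠ t in 𝓝 (0 : ℝ), Ψ q + (t * a) • ev 2 ∈ Ψ.target :=
    hc1.eventually (Ψ.open_target.mem_nhds htgt)
  refine mem_closure_of_tendsto (f := g) (b := 𝓝[>] 0) (hg.mono_left nhdsWithin_le_nhds) ?_
  filter_upwards [nhdsWithin_le_nhds hev, nhdsWithin_le_nhds (hg hN), self_mem_nhdsWithin]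
    with t h1 h2 h3
  refine ⟨h2, Ψ.map_target h1, ?_⟩
  have h4 : Ψ (g t) = Ψ q + (t * a) • ev 2 := Ψ.right_inv h1
  have h5 : (Ψ (g t)) 2 = t * a := by
    rw [h4]
    simp [hq0]
  rw [h5]
  have h6 : a * (t * a) = t * (a * a) := by ring
  rw [h6]
  exact mul_pos h3 (mul_self_pos.2 ha)

theorem pf_CNT (hTSC : T_TSC) (hCNJ : T_CNJ) (hNJS : T_NJS) : T_CNT := by
  intro Ω S h p hΩ hΩb hS hv hW hp hpΩ hden
  obtain ⟨hpS, Ψ₀, hp0, hΨp, hd, hd', hiff⟩ := hp
  -- the chart inside `Ω`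
  obtain ⟨Ψ, hΨ⟩ : ∃ Ψ : OpenPartialHomeomorph E E, Ψ = Ψ₀.restrOpen Ω hΩ := ⟨_, rfl⟩
  have hsrc : Ψ.source = Ψ₀.source ∩ Ω := by rw [hΨ]; rfl
  have hfun : ∀ x, Ψ x = Ψ₀ x := fun x => by rw [hΨ]; rfl
  have hpsrc : p ∈ Ψ.source := by rw [hsrc]; exact ⟨hp0, hpΩ⟩
  have hp2 : (Ψ p) 2 = 0 := by rw [hfun, hΨp]; rfl
  have hsub : Ψ.source ⊆ Ω := by rw [hsrc]; exact inter_subset_right
  have hsub0 : Ψ.source ⊆ Ψ₀.source := by rw [hsrc]; exact inter_subset_left
  have hcd : ContDiffOn ℝ ∞ Ψ Ψ.source := by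
    refine (hd.mono hsub0).congr fun x _ => hfun x
  have hcd' : ContDiffOn ℝ ∞ Ψ.symm Ψ.target := by
    have h1 : Ψ.target ⊆ Ψ₀.target := by
      rw [hΨ]
      intro x hx
      exact hx.1
    have h2 : (Ψ.symm : E → E) = Ψ₀.symm := by rw [hΨ]; rfl
    rw [h2]
    exact hd'.mono h1
  have hiff' : ∀ x ∈ Ψ.source, x ∈ S ↔ (Ψ x) 2 = 0 := by
    intro x hx
    rw [hiff x (hsub0 hx), hfun]
    exact ⟨fun h => h.1, fun h => ⟨h, fun h' => h'.elim⟩⟩
  obtain ⟨r, hr, hball, C, hC⟩ := hTSC Ω S h Ψ p hΩ hΩb hS hW hpsrc hp2 hsub hcd hcd' hiff'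
  obtain ⟨r₀, hr₀, hden⟩ := hden
  obtain ⟨ρ, hρ⟩ : ∃ ρ, ρ = min r r₀ := ⟨_, rfl⟩
  have hρ0 : 0 < ρ := by rw [hρ]; exact lt_min hr hr₀
  have hρr : ρ ≤ r := by rw [hρ]; exact min_le_left _ _
  have hρr₀ : ρ ≤ r₀ := by rw [hρ]; exact min_le_right _ _
  have hsr : ∀ x ∈ ball p ρ, x ∈ Ψ.source := fun x hx =>
    hball (ball_subset_closedBall (ball_subset_ball hρr hx))
  -- a point without jump
  have key : ∀ q ∈ S, q ∈ ball p ρ → NJ Ω h q → ∃ u : ℝ, ∀ x ∈ ball p ρ, x ∉ S →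
      |h x - u| ≤ |C| * Real.sqrt (dist x q) := by
    intro q hqS hq hNJ
    obtain ⟨r', hr', hr'Ω, U, hU, hhU⟩ := hNJS Ω S h q hΩ hΩb hS hv hW hNJ
    refine ⟨U q, fun x hx hxS => ?_⟩
    have hxa : (Ψ x) 2 ≠ 0 := fun h0 => hxS ((hiff' x (hsr x hx)).2 h0)
    have hcl := side_closure Ψ q (hsr q hq) ((hiff' q (hsr q hq)).1 hqS) _ hxa
      (ball p ρ ∩ ball q r') (inter_mem (isOpen_ball.mem_nhds hq) (ball_mem_nhds q hr'))
    have hNB := mem_closure_iff_nhdsWithin_neBot.1 hcl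
    have hUc : ContinuousAt U q :=
      (hU.1.continuousOn).continuousAt (ball_mem_nhds q hr')
    have ht1 : Tendsto (fun z => |h x - U z|) (𝓝[{z | z ∈ ball p ρ ∩ ball q r' ∧ z ∈ Ψ.source ∧
        0 < (Ψ x) 2 * (Ψ z) 2}] q) (𝓝 |h x - U q|) :=
      ((tendsto_const_nhds.sub (hUc.tendsto.mono_left nhdsWithin_le_nhds))).abs
    have ht2 : Tendsto (fun z => |C| * Real.sqrt (dist x z)) (𝓝[{z | z ∈ ball p ρ ∩ ball q r' ∧
        z ∈ Ψ.source ∧ 0 < (Ψ x) 2 * (Ψ z) 2}] q) (𝓝 (|C| * Real.sqrt (dist x q))) := by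
      have h1 : ContinuousAt (fun z => |C| * Real.sqrt (dist x z)) q := by fun_prop
      exact h1.tendsto.mono_left nhdsWithin_le_nhds
    refine le_of_tendsto_of_tendsto ht1 ht2 ?_
    filter_upwards [self_mem_nhdsWithin] with z hz
    obtain ⟨⟨hz1, hz2⟩, hz3, hz4⟩ := hz
    have hzS : z ∉ S := by
      intro hzS
      rw [(hiff' z hz3).1 hzS, mul_zero] at hz4
      exact lt_irrefl _ hz4
    rw [← hhU z hz2 hzS]
    refine (hC x (ball_subset_ball hρr hx) z (ball_subset_ball hρr hz1) hz4).trans ?_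
    exact mul_le_mul_of_nonneg_right (le_abs_self C) (Real.sqrt_nonneg _)
  -- the estimate
  have hest : ∀ x ∈ ball p ρ, ∀ y ∈ ball p ρ, x ∉ S → y ∉ S →
      |h x - h y| ≤ (2 * |C|) * Real.sqrt (dist x y) := by
    intro x hx y hy hxS hyS
    have hxa : (Ψ x) 2 ≠ 0 := fun h0 => hxS ((hiff' x (hsr x hx)).2 h0)
    have hya : (Ψ y) 2 ≠ 0 := fun h0 => hyS ((hiff' y (hsr y hy)).2 h0)
    have hsq := Real.sqrt_nonneg (dist x y)
    rcases lt_or_gt_of_ne (mul_ne_zero hxa hya) with hneg | hpos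
    · -- different sides
      have hseg : segment ℝ x y ⊆ ball p ρ := (convex_ball p ρ).segment_subset hx hy
      have hcont : ContinuousOn (fun z => (Ψ z) 2) (segment ℝ x y) := by
        have h1 : ContinuousOn Ψ (segment ℝ x y) :=
          Ψ.continuousOn.mono fun z hz => hsr z (hseg hz)
        exact (EuclideanSpace.proj (𝕜 := ℝ) (2 : Fin 3)).continuous.comp_continuousOn h1
      have hpre := (convex_segment (𝕜 := ℝ) x y).isPreconnected
      have hq : ∃ q ∈ segment ℝ x y, (Ψ q) 2 = 0 := by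
        rcases lt_or_gt_of_ne hxa with hx1 | hx1
        · have hy1 : 0 < (Ψ y) 2 := by
            by_contra hcon
            exact absurd (mul_nonneg_of_nonpos_of_nonpos hx1.le (not_lt.1 hcon)) (not_le.2 hneg)
          obtain ⟨q, hq, hq0⟩ := hpre.intermediate_value (left_mem_segment ℝ x y)
            (right_mem_segment ℝ x y) hcont ⟨hx1.le, hy1.le⟩
          exact ⟨q, hq, hq0⟩
        · have hy1 : (Ψ y) 2 < 0 := by
            by_contra hcon
            exact absurd (mul_nonneg hx1.le (not_lt.1 hcon)) (not_le.2 hneg)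
          obtain ⟨q, hq, hq0⟩ := hpre.intermediate_value (right_mem_segment ℝ x y)
            (left_mem_segment ℝ x y) hcont ⟨hy1.le, hx1.le⟩
          exact ⟨q, hq, hq0⟩
      obtain ⟨q, hqs, hq0⟩ := hq
      have hqb := hseg hqs
      have hqS : q ∈ S := (hiff' q (hsr q hqb)).2 hq0
      have hqcl := hden q hqS (ball_subset_ball hρr₀ hqb)
      have hdist := dist_add_dist_of_mem_segment hqs
      -- in the limit
      have hfin : |h x - h y| ≤ |C| * Real.sqrt (dist x q) + |C| * Real.sqrt (dist y q) := by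
        have hcl : q ∈ closure ({q | q ∈ S ∧ NJ Ω h q} ∩ ball p ρ) := by
          rw [mem_closure_iff_nhds] at hqcl ⊢
          intro t ht
          obtain ⟨z, hz1, hz2⟩ := hqcl (t ∩ ball p ρ) (inter_mem ht (isOpen_ball.mem_nhds hqb))
          exact ⟨z, hz1.1, hz2, hz1.2⟩
        have hNB := mem_closure_iff_nhdsWithin_neBot.1 hcl
        have hc : ContinuousAt (fun z => |C| * Real.sqrt (dist x z) + |C| * Real.sqrt (dist y z)) q := by
          fun_prop
        refine ge_of_tendsto (hc.tendsto.mono_left nhdsWithin_le_nhds :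
          Tendsto _ (𝓝[{q | q ∈ S ∧ NJ Ω h q} ∩ ball p ρ] q) _) ?_
        filter_upwards [self_mem_nhdsWithin] with z hz
        obtain ⟨u, hu⟩ := key z hz.1.1 hz.2 hz.1.2
        have h1 := hu x hx hxS
        have h2 := hu y hy hyS
        have h3 : |h x - h y| ≤ |h x - u| + |h y - u| := by
          have h4 : h x - h y = (h x - u) - (h y - u) := by ring
          rw [h4]
          exact abs_sub _ _
        linarith
      have h1 : Real.sqrt (dist x q) ≤ Real.sqrt (dist x y) :=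
        Real.sqrt_le_sqrt (by have := dist_nonneg (x := q) (y := y); linarith)
      have h2 : Real.sqrt (dist y q) ≤ Real.sqrt (dist x y) :=
        Real.sqrt_le_sqrt (by
          rw [dist_comm y q]
          have := dist_nonneg (x := x) (y := q)
          linarith)
      have h3 := abs_nonneg C
      nlinarith
    · refine (hC x (ball_subset_ball hρr hx) y (ball_subset_ball hρr hy) hpos).trans ?_
      have h3 := abs_nonneg C
      have h4 := le_abs_self C
      nlinarith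
  refine ⟨ρ, hρ0, fun x hx => hsub (hsr x hx), ?_⟩
  exact hCNJ Ω S h Ψ p ρ (2 * |C|) hΩ hS hv hW.harm.1 hW.l2 hW.g2 hρ0
    ((closedBall_subset_closedBall hρr).trans hball) hsub hcd hcd' hiff' hest

end Pool.Agent.H19.CK
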