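import Pool.Agent.H92.CK.Targets

/-!
# (SCT) global section for two cracks with the same edge
-/

open MeasureTheory Set Filter Topology Metric
open scoped ENNReal NNReal ContDiff RealInnerProductSpace

namespace Pool.Agent.H19.CK

open Pool.Agent.H92.CK Pool.Agent.H94.IC Pool.Agent.H94.AC

theorem lsg_mono {S : Set E} {e : E → ℤˣ} {p : E} {r t : ℝ} (h : LSg S e p r) (ht : 0 < t)
    (htr : t ≤ r) : LSg S e p t := by
  refine ⟨ht, ?_⟩
  rcases h.2 with ⟨h1, c, h2⟩ | ⟨Ψ, h1, h2, h3, h4, h5, c, h6⟩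
  · exact Or.inl ⟨h1.mono_left (ball_subset_ball htr), c, fun y hy => h2 y (ball_subset_ball htr hy)⟩
  · exact Or.inr ⟨Ψ, (ball_subset_ball htr).trans h1, h2, h3, h4, h5, c,
      fun y hy => h6 y (ball_subset_ball htr hy)⟩

theorem lsg_neg {S : Set E} {e : E → ℤˣ} {p : E} {r : ℝ} (h : LSg S e p r) :
    LSg S (fun y => - e y) p r := by
  refine ⟨h.1, ?_⟩
  rcases h.2 with ⟨h1, c, h2⟩ | ⟨Ψ, h1, h2, h3, h4, h5, c, h6⟩
  · exact Or.inl ⟨h1, -c, fun y hy => congrArg Neg.neg (h2 y hy)⟩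
  · exact Or.inr ⟨Ψ, h1, h2, h3, h4, h5, -c, fun y hy hyS =>
      (congrArg Neg.neg (h6 y hy hyS)).trans (neg_mul _ _).symm⟩

theorem unit_cases (c : ℤˣ) : c = 1 ∨ c = -1 := Int.units_eq_one_or c

theorem unit_ne_neg (c : ℤˣ) : c ≠ -c := by
  rcases Int.units_eq_one_or c with rfl | rfl <;> decide

theorem pf_SCT (hLSU : T_LSU) (hANG : T_ANG) (hPUN : T_PUN) (hGLS : T_GLS) (hEDC : T_EDC) :
    T_SCT := by
  intro Ω S S' hS hS' hedge
  obtain ⟨hL1, hL2, hL3⟩ := hLSU
  obtain ⟨hΓc, -, hΓS, -, hv⟩ := hEDC Ω S hS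
  obtain ⟨-, -, -, -, hv'⟩ := hEDC Ω S' hS'
  have hΓcl : IsClosed (edgePts S) := hΓc.isClosed
  have hdense : ∀ W : Set E, IsOpen W → W.Nonempty → (W \ (S ∪ S')).Nonempty := by
    intro W hW hne
    by_contra hcon
    rw [not_nonempty_iff_eq_empty, sdiff_eq_empty] at hcon
    have h1 : volume W ≤ 0 := by
      refine (measure_mono hcon).trans ((measure_union_le _ _).trans ?_)
      rw [hv, hv', add_zero]
    exact (hW.measure_pos volume hne).ne' (le_antisymm h1 bot_le)
  -- two sections agree up to sign near a point off the edge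
  have huni : ∀ (s t : E → ℤˣ) (x : E), LSec S S' s x → LSec S S' t x →
      ∃ ρ > 0, ∃ c : ℤˣ, ∀ y ∈ ball x ρ, y ∉ S ∪ S' → s y = c * t y := by
    rintro s t x ⟨r, e, e', he, he', hs⟩ ⟨r', f, f', hf, hf', ht⟩
    obtain ⟨t₁, ht₁, c, hc⟩ := hL1 S e f x r r' he hf
    obtain ⟨t₂, ht₂, c', hc'⟩ := hL1 S' e' f' x r r' he' hf'
    refine ⟨min (min t₁ t₂) (min r r'), lt_min (lt_min ht₁ ht₂) (lt_min he.1 hf.1), c * c', ?_⟩
    intro y hy hyY
    rw [mem_union, not_or] at hyY
    have h1 : dist y x < t₁ := hy.out.trans_le ((min_le_left _ _).trans (min_le_left _ _))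
    have h2 : dist y x < t₂ := hy.out.trans_le ((min_le_left _ _).trans (min_le_right _ _))
    have h3 : dist y x < r := hy.out.trans_le ((min_le_right _ _).trans (min_le_left _ _))
    have h4 : dist y x < r' := hy.out.trans_le ((min_le_right _ _).trans (min_le_right _ _))
    rw [hs y h3 hyY.1 hyY.2, ht y h4 hyY.1 hyY.2, hc y h1 hyY.1, hc' y h2 hyY.2]
    exact mul_mul_mul_comm _ _ _ _
  have hshf : SignSheaf (X := E) univ (S ∪ S')
      (fun W s => ∀ p ∈ W, p ∉ edgePts S → LSec S S' s p) := by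
    refine ⟨fun W hW _ hne => hdense W hW hne, ?_, ?_, ?_, ?_, ?_⟩
    · intro W s _ _ h p hp hpΓ
      obtain ⟨W', _, hpW', _, hP⟩ := h p hp
      exact hP p hpW' hpΓ
    · intro W s s' hW _ hP hss p hp hpΓ
      obtain ⟨r, e, e', he, he', hs⟩ := hP p hp hpΓ
      obtain ⟨t, ht, htW⟩ := Metric.isOpen_iff.1 hW p hp
      refine ⟨min t r, e, e', lsg_mono he (lt_min ht he.1) (min_le_right _ _),
        lsg_mono he' (lt_min ht he.1) (min_le_right _ _), fun y hy hyS hyS' => ?_⟩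
      have h1 : y ∈ ball p t := ball_subset_ball (min_le_left _ _) hy
      have h2 : y ∈ ball p r := ball_subset_ball (min_le_right _ _) hy
      rw [← hss y ⟨htW h1, by rw [mem_union, not_or]; exact ⟨hyS, hyS'⟩⟩]
      exact hs y h2 hyS hyS'
    · intro W s _ _ hP p hp hpΓ
      obtain ⟨r, e, e', he, he', hs⟩ := hP p hp hpΓ
      refine ⟨r, fun y => - e y, e', lsg_neg he, he', fun y hy hyS hyS' => ?_⟩
      simp only
      rw [hs y hy hyS hyS', neg_mul]
    · intro W s t hW _ hPs hPt x hx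
      by_cases hxΓ : x ∈ edgePts S
      · obtain ⟨W', hW', hxW', hW'W, hpre⟩ := hPUN S x hxΓ.2 W (hW.mem_nhds hx)
        refine ⟨W', hW', hxW', hW'W, ?_⟩
        have hopen : ∀ c : ℤˣ, IsOpen {p | p ∈ W' \ edgePts S ∧
            ∃ r > 0, ∀ y ∈ ball p r, y ∉ S ∪ S' → s y = c * t y} := by
          intro c
          rw [Metric.isOpen_iff]
          rintro p ⟨hp, r, hr, hy⟩
          obtain ⟨r₁, hr₁, hr₁'⟩ := Metric.isOpen_iff.1 (hW'.sdiff hΓcl) p hp
          refine ⟨min r r₁, lt_min hr hr₁, fun q hq => ⟨hr₁' (ball_subset_ball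
            (min_le_right _ _) hq), r - dist q p, ?_, fun y hyq => hy y ?_⟩⟩
          · have := hq.out.trans_le (min_le_left r r₁)
            linarith
          · rw [mem_ball] at hyq ⊢
            have := dist_triangle y q p
            linarith
        have hcov : W' \ edgePts S ⊆
            {p | p ∈ W' \ edgePts S ∧ ∃ r > 0, ∀ y ∈ ball p r, y ∉ S ∪ S' → s y = 1 * t y} ∪
            {p | p ∈ W' \ edgePts S ∧
              ∃ r > 0, ∀ y ∈ ball p r, y ∉ S ∪ S' → s y = (-1) * t y} := by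
          intro p hp
          obtain ⟨ρ, hρ, c, hc⟩ := huni s t p (hPs p (hW'W hp.1) hp.2) (hPt p (hW'W hp.1) hp.2)
          rcases unit_cases c with rfl | rfl
          · exact Or.inl ⟨hp, ρ, hρ, hc⟩
          · exact Or.inr ⟨hp, ρ, hρ, hc⟩
        have hdis : (W' \ edgePts S) ∩
            ({p | p ∈ W' \ edgePts S ∧ ∃ r > 0, ∀ y ∈ ball p r, y ∉ S ∪ S' → s y = 1 * t y} ∩
            {p | p ∈ W' \ edgePts S ∧
              ∃ r > 0, ∀ y ∈ ball p r, y ∉ S ∪ S' → s y = (-1) * t y}) = ∅ := by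
          rw [eq_empty_iff_forall_notMem]
          rintro p ⟨_, ⟨_, r, hr, h1⟩, ⟨_, r', hr', h2⟩⟩
          obtain ⟨y, hy, hyY⟩ := hdense (ball p (min r r')) isOpen_ball
            ⟨p, mem_ball_self (lt_min hr hr')⟩
          have h3 := h1 y (ball_subset_ball (min_le_left _ _) hy) hyY
          have h4 := h2 y (ball_subset_ball (min_le_right _ _) hy) hyY
          rw [h3, one_mul, neg_one_mul] at h4
          exact unit_ne_neg _ h4
        rcases isPreconnected_iff_subset_of_disjoint.1 hpre _ _ (hopen 1) (hopen (-1)) hcov hdis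
          with h | h
        · left
          intro y hy
          obtain ⟨_, r, hr, h1⟩ := h ⟨hy.1, fun hΓ => hy.2 (Or.inl (hΓS hΓ))⟩
          rw [h1 y (mem_ball_self hr) hy.2, one_mul]
        · right
          intro y hy
          obtain ⟨_, r, hr, h1⟩ := h ⟨hy.1, fun hΓ => hy.2 (Or.inl (hΓS hΓ))⟩
          rw [h1 y (mem_ball_self hr) hy.2, neg_one_mul]
      · obtain ⟨ρ, hρ, c, hc⟩ := huni s t x (hPs x hx hxΓ) (hPt x hx hxΓ)
        obtain ⟨r, hr, hrW⟩ := Metric.isOpen_iff.1 hW x hx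
        refine ⟨ball x (min ρ r), isOpen_ball, mem_ball_self (lt_min hρ hr),
          (ball_subset_ball (min_le_right _ _)).trans hrW, ?_⟩
        rcases unit_cases c with rfl | rfl
        · left
          intro y hy
          rw [hc y (ball_subset_ball (min_le_left _ _) hy.1) hy.2, one_mul]
        · right
          intro y hy
          rw [hc y (ball_subset_ball (min_le_left _ _) hy.1) hy.2, neg_one_mul]
    · intro x _
      by_cases hxΓ : x ∈ edgePts S
      · have hxΓ' : x ∈ edgePts S' := hedge ▸ hxΓ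
        obtain ⟨r, hr, s, hs⟩ := hANG S S' x hS.cpt.isClosed hS'.cpt.isClosed hxΓ.2 hxΓ'.2
          ⟨1, one_pos, fun y _ => by rw [hedge]⟩
        exact ⟨ball x r, s, isOpen_ball, mem_ball_self hr, subset_univ _, hs⟩
      · have hxΓ' : x ∉ edgePts S' := hedge ▸ hxΓ
        obtain ⟨e, r, he⟩ := hL2 Ω S x hS hxΓ
        obtain ⟨e', r', he'⟩ := hL2 Ω S' x hS' hxΓ'
        refine ⟨ball x (min r r'), fun y => e y * e' y, isOpen_ball,
          mem_ball_self (lt_min he.1 he'.1), subset_univ _, fun p hp _ => ?_⟩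
        obtain ⟨r₁, h1⟩ := hL3 S e x p r hS.cpt.isClosed he (ball_subset_ball (min_le_left _ _) hp)
        obtain ⟨r₂, h2⟩ := hL3 S' e' x p r' hS'.cpt.isClosed he'
          (ball_subset_ball (min_le_right _ _) hp)
        exact ⟨min r₁ r₂, e, e', lsg_mono h1 (lt_min h1.1 h2.1) (min_le_left _ _),
          lsg_mono h2 (lt_min h1.1 h2.1) (min_le_right _ _), fun y _ _ _ => rfl⟩
  obtain ⟨s, hs⟩ := hGLS E univ (S ∪ S') _ 0 isOpen_univ (mem_univ 0)
    (starConvex_univ _) hshf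
  exact ⟨s, fun p hp => hs p (mem_univ p) hp⟩

end Pool.Agent.H19.CK
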